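import Pool.Agent.Helper96.GPL.St

set_option autoImplicit false

namespace Pool.Agent.Helper77.GPL

open Pool.Agent.Helper96.GPL Pool.Agent.Helper18.GP Relation Classical

theorem pBound (h2 : lTreeList) (h4 : lDeg) (h5 : lCard) : lBound := by
  intro X S d A E hPM hAS hE hc
  rcases A.eq_empty_or_nonempty with rfl | hA
  · refine ⟨[], by intro e he; simp at he, by intro a ha; simp at ha, ?_, by simp⟩
    have : (0 : ℝ) ≤ nlen d E := by
      unfold nlen
      apply List.sum_nonneg
      intro z hz
      rw [List.mem_map] at hz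
      obtain ⟨e, he, rfl⟩ := hz
      exact hPM.nonneg _ (hE e he).1 _ (hE e he).2
    simpa [nlen] using this
  · obtain ⟨k, H, x, hT, hdeg, hlen⟩ := h4 X S d A E hPM hA hAS hE hc
    have hk := h5 X S A k H x hT hdeg
    obtain ⟨E', h1, h2', h3, h4'⟩ := h2 X S (A : Set X) d k H x hPM hT.mem hT.tree.connected hT.cov
    exact ⟨E', h1, h2', h3.le.trans hlen, h4'.trans (Nat.mul_le_mul hk hk)⟩

end Pool.Agent.Helper77.GPL
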