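import Pool.Agent.Helper96.GPL.St

set_option autoImplicit false

namespace Pool.Agent.Helper77.GPL

open Pool.Agent.Helper96.GPL Pool.Agent.Helper18.GP Relation Classical

theorem pCpt : lCpt := by
  intro N V G
  have hsub : Pts V G ⊆ Set.pi Set.univ (fun _ : Fin N => Set.Icc (0 : ℝ) 1) := by
    intro x hx v _
    refine ⟨hx.1 v, ?_⟩
    rw [← hx.2.1]
    exact Finset.single_le_sum (fun i _ => hx.1 i) (Finset.mem_univ v)
  have hcl : IsClosed (Pts V G) := by
    have e : Pts V G = (⋂ v, {x : Fin N → ℝ | 0 ≤ x v}) ∩ ({x : Fin N → ℝ | ∑ v, x v = 1} ∩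
        ((⋂ v, {x : Fin N → ℝ | x v = 0 ∨ v ∈ V}) ∩
          ⋂ a, ⋂ b, {x : Fin N → ℝ | x a = 0 ∨ x b = 0 ∨ a = b ∨ G.Adj a b})) := by
      ext x
      simp only [Pts, Set.mem_ofPred_eq, Set.mem_inter_iff, Set.mem_iInter]
      constructor
      · rintro ⟨h1, h2, h3, h4⟩
        refine ⟨h1, h2, fun v => ?_, fun a b => ?_⟩
        · by_cases h : x v = 0
          · exact Or.inl h
          · exact Or.inr (h3 v h)
        · by_cases ha : x a = 0
          · exact Or.inl ha
          · by_cases hb : x b = 0
            · exact Or.inr (Or.inl hb)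
            · by_cases hab : a = b
              · exact Or.inr (Or.inr (Or.inl hab))
              · exact Or.inr (Or.inr (Or.inr (h4 a b ha hb hab)))
      · rintro ⟨h1, h2, h3, h4⟩
        refine ⟨h1, h2, fun v hv => (h3 v).resolve_left hv, fun a b ha hb hab => ?_⟩
        exact (((h4 a b).resolve_left ha).resolve_left hb).resolve_left hab
    rw [e]
    refine (isClosed_iInter fun v => isClosed_le continuous_const (continuous_apply v)).inter
      ((isClosed_eq (by fun_prop) continuous_const).inter
        ((isClosed_iInter fun v => ?_).inter (isClosed_iInter fun a => isClosed_iInter fun b => ?_)))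
    · by_cases hv : v ∈ V
      · simp [hv]
      · simp only [hv, or_false]
        exact isClosed_eq (continuous_apply v) continuous_const
    · have : {x : Fin N → ℝ | x a = 0 ∨ x b = 0 ∨ a = b ∨ G.Adj a b} =
          {x | x a = 0} ∪ ({x | x b = 0} ∪ {x | a = b ∨ G.Adj a b}) := by
        ext x; rfl
      rw [this]
      refine (isClosed_eq (continuous_apply a) continuous_const).union
        ((isClosed_eq (continuous_apply b) continuous_const).union ?_)
      exact isClosed_const
  exact IsCompact.of_isClosed_subset (isCompact_univ_pi fun _ => isCompact_Icc) hcl hsub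

end Pool.Agent.Helper77.GPL
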