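import Pool.Agent.Helper96.GPL.St

set_option autoImplicit false

namespace Pool.Agent.Helper77.GPL

open Pool.Agent.Helper96.GPL Pool.Agent.Helper18.GP Relation Classical

private lemma cpt {X : Type} [TopologicalSpace X] [T2Space X] {S : Set X} {d : X → X → ℝ}
    {A : Finset X} (hS : IsCompact S) (hd : ContinuousOn (fun p : X × X => d p.1 p.2) (S ×ˢ S))
    {k : ℕ} (H : SimpleGraph (Fin k)) (σ : A → Fin k) :
    IsCompact {c : ℝ | H.Connected ∧ ∃ x : Fin k → X, (∀ i, x i ∈ S) ∧ (∀ a, x (σ a) = a) ∧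
      tlen d H x = c} := by
  by_cases hH : H.Connected
  · have e : {c : ℝ | H.Connected ∧ ∃ x : Fin k → X, (∀ i, x i ∈ S) ∧ (∀ a, x (σ a) = a) ∧
        tlen d H x = c} =
        tlen d H '' (Set.pi Set.univ (fun _ => S) ∩ {x | ∀ a, x (σ a) = a}) := by
      ext c
      constructor
      · rintro ⟨_, x, h1, h2, h3⟩
        exact ⟨x, ⟨fun i _ => h1 i, h2⟩, h3⟩
      · rintro ⟨x, ⟨h1, h2⟩, h3⟩
        exact ⟨hH, x, fun i => h1 i trivial, h2, h3⟩
    rw [e]
    apply IsCompact.image_of_continuousOn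
    · apply (isCompact_univ_pi fun _ => hS).inter_right
      have : {x : Fin k → X | ∀ a, x (σ a) = a} = ⋂ a : A, {x : Fin k → X | x (σ a) = a} := by
        ext x; simp
      rw [this]
      exact isClosed_iInter fun a => isClosed_eq (continuous_apply _) continuous_const
    · unfold tlen
      apply ContinuousOn.div_const
      apply continuousOn_finsetSum
      intro p _
      have hm : ContinuousOn (fun x : Fin k → X => (x p.1, x p.2))
          (Set.pi Set.univ (fun _ => S) ∩ {x | ∀ a, x (σ a) = a}) :=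
        ((continuous_apply p.1).prodMk (continuous_apply p.2)).continuousOn
      exact hd.comp hm fun x hx => ⟨hx.1 p.1 trivial, hx.1 p.2 trivial⟩
  · have e : {c : ℝ | H.Connected ∧ ∃ x : Fin k → X, (∀ i, x i ∈ S) ∧ (∀ a, x (σ a) = a) ∧
        tlen d H x = c} = ∅ := by
      ext c
      simp [hH]
    rw [e]
    exact isCompact_empty

theorem pMin (h2 : lTreeList) (h4 : lDeg) (h5 : lCard) : lMin := by
  intro X _ _ S d A hS hPM hd hAS
  rcases A.eq_empty_or_nonempty with rfl | hA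
  · refine ⟨[], by intro e he; simp at he, by intro a ha; simp at ha, fun E' hE' _ => ?_⟩
    have : (0 : ℝ) ≤ nlen d E' := by
      unfold nlen
      apply List.sum_nonneg
      intro z hz
      rw [List.mem_map] at hz
      obtain ⟨e, he, rfl⟩ := hz
      exact hPM.nonneg _ (hE' e he).1 _ (hE' e he).2
    simpa [nlen] using this
  obtain ⟨a0, ha0⟩ := hA
  obtain ⟨K, hK⟩ : ∃ K : Set ℝ, K = ⋃ i : (k : Fin (3 * A.card + 1)) ×
      (SimpleGraph (Fin k.val) × (A → Fin k.val)), {c : ℝ | i.2.1.Connected ∧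
      ∃ x : Fin i.1.val → X, (∀ j, x j ∈ S) ∧ (∀ a, x (i.2.2 a) = a) ∧ tlen d i.2.1 x = c} :=
    ⟨_, rfl⟩
  have hKc : IsCompact K := by
    rw [hK]
    exact isCompact_iUnion fun i => cpt hS hd i.2.1 i.2.2
  -- every network is bounded below by an element of `K`
  have key : ∀ E', Nd S E' → NConn E' (A : Set X) → ∃ c ∈ K, c ≤ nlen d E' := by
    intro E' hE' hc'
    obtain ⟨k, H, x, hT, hdeg, hlen⟩ := h4 X S d A E' hPM ⟨a0, ha0⟩ hAS hE' hc'
    have hk := h5 X S A k H x hT hdeg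
    refine ⟨tlen d H x, ?_, hlen⟩
    rw [hK, Set.mem_iUnion]
    have hcov : ∀ a : A, ∃ i, x i = a := fun a => hT.cov a a.2
    choose σ hσ using hcov
    exact ⟨⟨⟨k, by omega⟩, H, σ⟩, hT.tree.connected, x, hT.mem, hσ, rfl⟩
  have hKne : K.Nonempty := by
    obtain ⟨c, hc, _⟩ := key (A.toList.map fun a => (a0, a)) (by
      intro e he
      rw [List.mem_map] at he
      obtain ⟨a, ha, rfl⟩ := he
      exact ⟨hAS a0 ha0, hAS a (Finset.mem_toList.1 ha)⟩) (by
      have h0 : ∀ a ∈ (A : Set X), EqvGen (fun x y => (x, y) ∈ A.toList.map fun a => (a0, a)) a0 a :=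
        fun a ha => EqvGen.rel _ _ (List.mem_map.2 ⟨a, Finset.mem_toList.2 ha, rfl⟩)
      intro a ha b hb
      exact EqvGen.trans _ _ _ (EqvGen.symm _ _ (h0 a ha)) (h0 b hb))
    exact ⟨c, hc⟩
  obtain ⟨c, hc, hmin⟩ := hKc.exists_isLeast hKne
  rw [hK, Set.mem_iUnion] at hc
  obtain ⟨⟨k, H, σ⟩, hH, x, hx1, hx2, hx3⟩ := hc
  obtain ⟨E, hE1, hE2, hE3, _⟩ := h2 X S (A : Set X) d k H x hPM hx1 hH
    (fun a ha => ⟨σ ⟨a, ha⟩, hx2 ⟨a, ha⟩⟩)
  refine ⟨E, hE1, hE2, fun E' hE' hc' => ?_⟩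
  obtain ⟨c', hc'K, hle⟩ := key E' hE' hc'
  have := hmin hc'K
  rw [hE3]
  change tlen d H x = c at hx3
  linarith

end Pool.Agent.Helper77.GPL
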