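import Pool.Agent.Helper96.GPL.St

set_option autoImplicit false

namespace Pool.Agent.Helper77.GPL

open Pool.Agent.Helper96.GPL Pool.Agent.Helper18.GP Relation Classical

theorem pCard : lCard := by
  intro X S A k H x hT hdeg
  have hsum := H.sum_degrees_eq_twice_card_edges
  have hcard := hT.tree.card_edgeFinset
  rw [Fintype.card_fin] at hcard
  have hd : ∀ i, (Finset.univ.filter fun j => H.Adj i j).card = H.degree i := by
    intro i
    rw [← H.card_neighborFinset_eq_degree]
    congr 1
    ext j
    simp
  have h1 : (Finset.univ.filter fun i => x i ∈ A).card ≤ A.card := by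
    apply Finset.card_le_card_of_injOn x
    · intro i hi
      simpa using hi
    · exact hT.inj.injOn
  have h2 : (Finset.univ.filter fun i => x i ∈ A).card +
      (Finset.univ.filter fun i => x i ∉ A).card = k := by
    rw [Finset.card_filter_add_card_filter_not, Finset.card_univ, Fintype.card_fin]
  have h3 : (Finset.univ.filter fun i => x i ∉ A).card * 3 ≤ ∑ i, H.degree i := by
    rw [← smul_eq_mul]
    refine (Finset.card_nsmul_le_sum _ (fun i => H.degree i) 3 ?_).trans
      (Finset.sum_le_sum_of_subset (Finset.subset_univ _))
    intro i hi
    rw [← hd]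
    exact hdeg i (by simpa using hi)
  omega

end Pool.Agent.Helper77.GPL
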